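import Pool.Agent.H83.GJ.Ps
import Pool.Agent.H88.GJ.Uni

/-!
# GJ, Loc (helper83): local computations at a point

* `mem_dvd`: `el F u w ∈ pI F x y ^ M` gives `X ^ M ∣ u + w Y` in the power series at `(x, y)`, `Y` the expansion of `y`.
* `loc1`: two points with the same reduction, `X ^ M` divides `u - w Y` at the one and `u + w Y` at the other: `X ^ M` divides
  the reduction of `w`.
* `loc2`: if moreover the reduction of `w` is zero, the coefficients of `w` at `x` of index `< M - 1` are smaller than `M (x' - x)`,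
  the one of index `M - 1` has the value of `M (x' - x)`.
-/

set_option autoImplicit false

namespace GJ

open Polynomial HK

section mem

variable {K : Type*} [Field K]

/-- The expansion of a polynomial at `x`. -/
noncomputable def tay {R : Type*} [CommRing R] (x : R) : R[X] →+* PowerSeries R :=
  (Polynomial.coeToPowerSeries.ringHom (R := R)).comp (Polynomial.compRingHom (X + C x))

theorem tay_apply {R : Type*} [CommRing R] (x : R) (p : R[X]) :
    tay x p = ((p.comp (X + C x) : R[X]) : PowerSeries R) := rfl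

theorem tay_const {R : Type*} [CommRing R] (x : R) (p : R[X]) :
    PowerSeries.constantCoeff (tay x p) = p.eval x := by
  rw [tay_apply, Polynomial.constantCoeff_coe, coeff_zero_eq_eval_zero, eval_comp]
  simp

theorem tay_map {R S : Type*} [CommRing R] [CommRing S] (f : R →+* S) (x : R) (p : R[X]) :
    PowerSeries.map f (tay x p) = tay (f x) (p.map f) := by
  rw [tay_apply, tay_apply, ← Polynomial.polynomial_map_coe, Polynomial.map_comp,
    Polynomial.map_add, map_X, map_C]

theorem mem_dvd (F : K[X]) {x y : K} (Y : PowerSeries K) (hY : Y ^ 2 = tay x F)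
    (hy : PowerSeries.constantCoeff Y = y) (M : ℕ) (u w : K[X])
    (h : el F u w ∈ pI F x y ^ M) : PowerSeries.X ^ M ∣ tay x u + tay x w * Y := by
  have hroot : (X ^ 2 - C F : K[X][X]).eval₂ (tay x) Y = 0 := by
    rw [eval₂_sub, eval₂_pow, eval₂_X, eval₂_C, hY, sub_self]
  set φ : CR F →+* PowerSeries K := AdjoinRoot.lift (tay x) Y hroot with hφ
  have hel : ∀ u w, φ (el F u w) = tay x u + tay x w * Y := by
    intro u w
    rw [hφ]
    unfold el
    rw [map_add, map_mul, AdjoinRoot.lift_of, AdjoinRoot.lift_of, AdjoinRoot.lift_root]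
  have hle : Ideal.map φ (pI F x y) ≤ Ideal.span {PowerSeries.X} := by
    rw [Ideal.map_le_iff_le_comap]
    unfold pI
    rw [Ideal.span_le]
    rintro r (rfl | hr)
    · rw [SetLike.mem_coe, Ideal.mem_comap, hel, Ideal.mem_span_singleton, PowerSeries.X_dvd_iff,
        map_add, map_mul, tay_const, tay_const]
      simp
    · rw [Set.mem_singleton_iff] at hr
      rw [hr, SetLike.mem_coe, Ideal.mem_comap, hel, Ideal.mem_span_singleton,
        PowerSeries.X_dvd_iff, map_add, map_mul, tay_const, tay_const, hy]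
      simp
  have h1 : φ (el F u w) ∈ Ideal.map φ (pI F x y ^ M) := Ideal.mem_map_of_mem φ h
  rw [Ideal.map_pow] at h1
  have h2 := Ideal.pow_right_mono hle M h1
  rw [Ideal.span_singleton_pow, Ideal.mem_span_singleton, hel] at h2
  exact h2

theorem dvd_of_tay {R : Type*} [CommRing R] (x : R) (M : ℕ) (p : R[X])
    (h : PowerSeries.X ^ M ∣ tay x p) : (X - C x) ^ M ∣ p := by
  have h1 : X ^ M ∣ p.comp (X + C x) := by
    rw [Polynomial.X_pow_dvd_iff]
    intro d hd
    have := PowerSeries.X_pow_dvd_iff.1 h d hd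
    rwa [tay_apply, Polynomial.coeff_coe] at this
  obtain ⟨q, hq⟩ := h1
  refine ⟨q.comp (X - C x), ?_⟩
  have h2 := congrArg (fun r => r.comp (X - C x)) hq
  simp only [comp_assoc, mul_comp, add_comp, X_comp, C_comp, pow_comp] at h2
  rw [sub_add_cancel, comp_X] at h2
  exact h2

end mem

variable {K : Type*} [Field K] {Γ : Type*} [LinearOrderedCommGroupWithZero Γ] (v : Valuation K Γ)

theorem re_coe (x : v.valuationSubring) :
    re v (x : K) = IsLocalRing.residue v.valuationSubring x := by
  unfold re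
  have hx : v (x : K) ≤ 1 := x.2
  rw [dif_pos hx]

theorem exists_lift {u : K[X]} (hu : gn v u ≤ 1) : ∃ U : (v.valuationSubring)[X],
    U.map v.valuationSubring.subtype = u ∧
      U.map (IsLocalRing.residue v.valuationSubring) = rd v u := by
  have h1 : ∃ U : (v.valuationSubring)[X], U.map v.valuationSubring.subtype = u := by
    rw [← mem_lifts, lifts_iff_coeff_lifts]
    intro i
    exact ⟨⟨u.coeff i, (le_gn v u i).trans hu⟩, rfl⟩
  obtain ⟨U, hU⟩ := h1
  refine ⟨U, hU, ?_⟩
  ext i
  rw [rd_coeff v hu, coeff_map, ← hU, coeff_map]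
  exact (re_coe v (U.coeff i)).symm

/-- The square root of `F` at a point. -/
theorem exists_Y (F : (v.valuationSubring)[X]) (x b : v.valuationSubring)
    (hb : b ^ 2 = F.eval x) (hu : IsUnit b) (h2 : IsUnit (2 : v.valuationSubring)) :
    ∃ Y : PowerSeries v.valuationSubring, PowerSeries.constantCoeff Y = b ∧ Y ^ 2 = tay x F := by
  obtain ⟨c, hc⟩ := (h2.mul hu).exists_right_inv
  exact exists_sqrt (tay x F) b c hc (by rw [tay_const, hb])

theorem dvd_O {R : Type*} [CommRing R] (f : R →+* K) (hf : Function.Injective f) (F U W : R[X])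
    (x b : R) (Y : PowerSeries R) (hY : Y ^ 2 = tay x F)
    (hb : PowerSeries.constantCoeff Y = b) (M : ℕ)
    (h : el (F.map f) (U.map f) (W.map f) ∈ pI (F.map f) (f x) (f b) ^ M) :
    PowerSeries.X ^ M ∣ tay x U + tay x W * Y := by
  have h1 := mem_dvd (F.map f) (x := f x) (y := f b) (PowerSeries.map f Y)
    (by rw [← map_pow, hY, tay_map])
    (by rw [← PowerSeries.coeff_zero_eq_constantCoeff_apply, PowerSeries.coeff_map,
      PowerSeries.coeff_zero_eq_constantCoeff_apply, hb]) M _ _ h
  rw [← tay_map, ← tay_map, ← map_mul, ← map_add, PowerSeries.X_pow_dvd_iff] at h1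
  rw [PowerSeries.X_pow_dvd_iff]
  intro m hm
  have h4 := h1 m hm
  rw [PowerSeries.coeff_map] at h4
  exact hf (h4.trans (map_zero f).symm)

theorem loc1 (F U W : (v.valuationSubring)[X]) (x x' b b' : v.valuationSubring)
    (h2 : IsUnit (2 : v.valuationSubring)) (hu : IsUnit b)
    (hx : IsLocalRing.residue v.valuationSubring x' = IsLocalRing.residue v.valuationSubring x)
    (hbb : IsLocalRing.residue v.valuationSubring b' = IsLocalRing.residue v.valuationSubring b)
    (Y Y' : PowerSeries v.valuationSubring) (hY : Y ^ 2 = tay x F)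
    (hb : PowerSeries.constantCoeff Y = b) (hY' : Y' ^ 2 = tay x' F)
    (hb' : PowerSeries.constantCoeff Y' = b') (M : ℕ)
    (h : PowerSeries.X ^ M ∣ tay x U - tay x W * Y)
    (h' : PowerSeries.X ^ M ∣ tay x' U + tay x' W * Y') :
    (X - C (IsLocalRing.residue v.valuationSubring x)) ^ M ∣
      W.map (IsLocalRing.residue v.valuationSubring) := by
  set ρ := IsLocalRing.residue v.valuationSubring with hρ
  have e1 := map_dvd (PowerSeries.map ρ) h
  have e2 := map_dvd (PowerSeries.map ρ) h'
  rw [map_pow, PowerSeries.map_X, map_sub, map_mul, tay_map, tay_map] at e1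
  rw [map_pow, PowerSeries.map_X, map_add, map_mul, tay_map, tay_map, hx] at e2
  have hc : PowerSeries.constantCoeff (PowerSeries.map ρ Y) = ρ b := by
    rw [← PowerSeries.coeff_zero_eq_constantCoeff_apply, PowerSeries.coeff_map,
      PowerSeries.coeff_zero_eq_constantCoeff_apply, hb]
  have hc' : PowerSeries.constantCoeff (PowerSeries.map ρ Y') = ρ b := by
    rw [← PowerSeries.coeff_zero_eq_constantCoeff_apply, PowerSeries.coeff_map,
      PowerSeries.coeff_zero_eq_constantCoeff_apply, hb', hbb]
  have hb0 : ρ b ≠ 0 := by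
    rw [hρ, IsLocalRing.residue_ne_zero_iff_isUnit]
    exact hu
  have h20 : (2 : RF v) ≠ 0 := by
    have : ρ 2 ≠ 0 := by
      rw [hρ, IsLocalRing.residue_ne_zero_iff_isUnit]
      exact h2
    rwa [map_ofNat] at this
  have hYY : PowerSeries.map ρ Y' = PowerSeries.map ρ Y := by
    have h3 : (PowerSeries.map ρ Y') ^ 2 = (PowerSeries.map ρ Y) ^ 2 := by
      rw [← map_pow, ← map_pow, hY, hY', tay_map, tay_map, hx]
    rcases sq_eq_sq_iff_eq_or_eq_neg.1 h3 with h4 | h4
    · exact h4
    · exfalso
      have h5 := congrArg (PowerSeries.constantCoeff (R := RF v)) h4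
      rw [map_neg, hc, hc'] at h5
      have h6 : (2 : RF v) * ρ b = 0 := by linear_combination h5
      rcases mul_eq_zero.1 h6 with h7 | h7
      · exact h20 h7
      · exact hb0 h7
  rw [hYY] at e2
  have e3 : PowerSeries.X ^ M ∣ tay (ρ x) (W.map ρ) * (2 * PowerSeries.map ρ Y) := by
    have := dvd_sub e2 e1
    have e : tay (ρ x) (U.map ρ) + tay (ρ x) (W.map ρ) * PowerSeries.map ρ Y -
      (tay (ρ x) (U.map ρ) - tay (ρ x) (W.map ρ) * PowerSeries.map ρ Y) =
        tay (ρ x) (W.map ρ) * (2 * PowerSeries.map ρ Y) := by ring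
    rwa [e] at this
  have hun : IsUnit (2 * PowerSeries.map ρ Y) := by
    rw [PowerSeries.isUnit_iff_constantCoeff, map_mul, hc, map_ofNat]
    exact isUnit_iff_ne_zero.2 (mul_ne_zero h20 hb0)
  exact dvd_of_tay (ρ x) M (W.map ρ) ((hun.dvd_mul_right).1 e3)

theorem loc2 (F U W V : (v.valuationSubring)[X]) (x x' : v.valuationSubring)
    (h2 : IsUnit (2 : v.valuationSubring))
    (hx : IsLocalRing.residue v.valuationSubring x' = IsLocalRing.residue v.valuationSubring x)
    (hne : x' ≠ x) (Y : PowerSeries v.valuationSubring) (hY : Y ^ 2 = tay x F)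
    (hYu : IsUnit Y) (M : ℕ) (hM : 0 < M) (hM0 : (M : K) ≠ 0)
    (h : PowerSeries.X ^ M ∣ tay x U - tay x W * Y)
    (hN : U ^ 2 - W ^ 2 * F = (X - C x) ^ M * (X - C x') ^ M * V) (hV : IsUnit (V.eval x))
    (hW : W.map (IsLocalRing.residue v.valuationSubring) = 0)
    (hj : ∀ j : ℕ, 2 ≤ j → v ((x' : K) - x) ^ (j - 1) < v (j : K)) :
    Low v (tay x W) (M - 1) (v ((M : K) * ((x' : K) - x))) := by
  set ρ := IsLocalRing.residue v.valuationSubring with hρ
  obtain ⟨S2, hS2⟩ := h
  -- the norm equation
  have e0 : tay x ((X - C x) ^ M : (v.valuationSubring)[X]) = PowerSeries.X ^ M := by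
    rw [map_pow]
    congr 1
    rw [tay_apply]
    simp
  have e0' : tay x ((X - C x') ^ M : (v.valuationSubring)[X]) =
      (((X - C (x' - x)) ^ M : (v.valuationSubring)[X]) : PowerSeries v.valuationSubring) := by
    rw [tay_apply]
    congr 1
    rw [pow_comp]
    congr 1
    rw [sub_comp, X_comp, C_comp, C_sub]
    ring
  have e1 := congrArg (tay x) hN
  rw [map_sub, map_mul, map_mul, map_mul, map_pow (tay x) U, map_pow (tay x) W, e0, e0', ← hY] at e1
  set A := tay x U + tay x W * Y with hA
  set Q := (((X - C (x' - x)) ^ M : (v.valuationSubring)[X]) :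
    PowerSeries v.valuationSubring) with hQ
  have hX0 : (PowerSeries.X ^ M : PowerSeries v.valuationSubring) ≠ 0 :=
    pow_ne_zero _ PowerSeries.X_ne_zero
  have e2 : A * S2 = Q * tay x V := by
    apply mul_left_cancel₀ hX0
    calc PowerSeries.X ^ M * (A * S2) = A * (PowerSeries.X ^ M * S2) := by ring
      _ = A * (tay x U - tay x W * Y) := by rw [hS2]
      _ = tay x U ^ 2 - tay x W ^ 2 * Y ^ 2 := by rw [hA]; ring
      _ = PowerSeries.X ^ M * (Q * tay x V) := by rw [e1]; ring
  -- `S2` is a unit
  have hVu : IsUnit (tay x V) := by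
    rw [PowerSeries.isUnit_iff_constantCoeff, tay_const]
    exact hV
  have hS2u : IsUnit S2 := by
    have f1 := congrArg (PowerSeries.map ρ) hS2
    rw [map_sub, map_mul, map_mul, map_pow, PowerSeries.map_X, tay_map ρ x W, hW, map_zero, zero_mul,
      sub_zero] at f1
    have f2 := congrArg (PowerSeries.map ρ) e1
    have f3 : PowerSeries.map ρ Q = PowerSeries.X ^ M := by
      rw [hQ, ← Polynomial.polynomial_map_coe, Polynomial.map_pow, Polynomial.map_sub, map_X,
        map_C, map_sub, hx, sub_self, C_0, sub_zero]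
      simp
    rw [map_sub, map_mul, map_mul, map_mul, map_pow, map_pow, map_pow, map_pow, f3,
      PowerSeries.map_X, tay_map ρ x W, hW, map_zero, f1] at f2
    have hX1 : (PowerSeries.X ^ M * PowerSeries.X ^ M : PowerSeries (RF v)) ≠ 0 :=
      mul_ne_zero (pow_ne_zero _ PowerSeries.X_ne_zero) (pow_ne_zero _ PowerSeries.X_ne_zero)
    have f4 : (PowerSeries.map ρ S2) ^ 2 = PowerSeries.map ρ (tay x V) := by
      apply mul_left_cancel₀ hX1
      linear_combination f2
    have f5 := (hVu.map (PowerSeries.map ρ))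
    rw [← f4] at f5
    have f6 : IsUnit (PowerSeries.map ρ S2) := (isUnit_pow_iff two_ne_zero).1 f5
    rw [PowerSeries.isUnit_iff_constantCoeff, ← PowerSeries.coeff_zero_eq_constantCoeff_apply,
      PowerSeries.coeff_map, PowerSeries.coeff_zero_eq_constantCoeff_apply,
      isUnit_iff_ne_zero] at f6
    rw [PowerSeries.isUnit_iff_constantCoeff]
    exact IsLocalRing.residue_ne_zero_iff_isUnit _ |>.1 f6
  obtain ⟨T2, hT2⟩ := hS2u.exists_right_inv
  have hT2u : IsUnit T2 := IsUnit.of_mul_eq_one S2 (by rw [mul_comm]; exact hT2)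
  have e3 : A = Q * (tay x V * T2) := by
    linear_combination T2 * e2 - A * hT2
  have h2' : IsUnit (2 : PowerSeries v.valuationSubring) := by
    rw [PowerSeries.isUnit_iff_constantCoeff, map_ofNat]
    exact h2
  obtain ⟨Z, hZ⟩ := (h2'.mul hYu).exists_right_inv
  have hZu : IsUnit Z := IsUnit.of_mul_eq_one (2 * Y) (by rw [mul_comm]; exact hZ)
  have e4 : tay x W = (A - PowerSeries.X ^ (M - 1 + 1) * S2) * Z := by
    rw [Nat.sub_add_cancel hM, ← hS2, hA]
    linear_combination (-tay x W) * hZ
  rw [e4]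
  refine low_mul v (low_sub v ?_) hZu
  rw [e3]
  refine low_mul v ?_ (hVu.mul hT2u)
  have hr : ((x' - x : v.valuationSubring) : K) ≠ 0 := by
    intro h0
    apply hne
    have : x' - x = 0 := Subtype.ext h0
    exact sub_eq_zero.1 this
  exact low_pow v M hM (x' - x) hM0 hr hj

end GJ
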