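import Pool.Agent.H83.GJ.Loc

/-!
# GJ, Lx (helper83): the main lemma (X)

`P, P', Q, Q'` on `y ^ 2 = F(x)`, integral, `y(P), y(Q)` units, `P' = P`, `Q' = Q` mod `v`, `x(P) - x(Q)` a unit, `P' ≠ P`, `Q' ≠ Q`,
`v (x(P') - x(P)) ^ (j - 1) < v j` for `j ≥ 2`: `P' - P - Q' + Q` is not torsion.

PROOF.  `M (P' + Q + w P + w Q') = div (u + w y)`, norm `((x - p) (x - p') (x - q) (x - q')) ^ M`, `2 deg w + 5 ≤ 4 M`.  `u, w` are integral (parity).
`loc1` at `P` and `Q`: `(x - p) ^ M (x - q) ^ M` divides `w` mod `v`, so `w = 0` mod `v`.  `loc2` at `P` and `Q`: the coefficients of index `< M - 1` of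
`w` are smaller than the one of index `M - 1`, so `(x - p) ^ (M - 1) (x - q) ^ (M - 1)` divides `w / |w|` mod `v`: contradiction to the degree.
-/

set_option autoImplicit false

namespace GJ

open Polynomial HK

variable {K : Type*} [Field K] {Γ : Type*} [LinearOrderedCommGroupWithZero Γ] (v : Valuation K Γ)
  {g : ℕ} (a : Fin (2 * g + 1) → K)

private theorem Lx_FF_gn (ha : ∀ i, v (a i) ≤ 1) : gn v (FF a) = 1 := by
  unfold FF
  rw [gn_prod]
  exact Finset.prod_eq_one (fun i _ => gn_X_sub_C v (ha i))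

private theorem Lx_rd_FF (ha : ∀ i, v (a i) ≤ 1) : rd v (FF a) = ∏ i, (X - C (re v (a i))) := by
  unfold FF
  rw [rd_prod v _ _ (fun i _ => (gn_X_sub_C v (ha i)).le)]
  exact Finset.prod_congr rfl (fun i _ => rd_X_sub_C v (ha i))

private theorem Lx_rd_expr (ha : ∀ i, v (a i) ≤ 1) (u w : K[X]) (hu : gn v u ≤ 1)
    (hw : gn v w ≤ 1) :
    rd v (u ^ 2 - w ^ 2 * FF a) = rd v u ^ 2 - rd v w ^ 2 * rd v (FF a) := by
  have hF := (Lx_FF_gn v a ha).le
  have h1 : gn v (u ^ 2) ≤ 1 := by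
    rw [gn_pow]
    exact pow_le_one₀ zero_le hu
  have h2 : gn v (w ^ 2) ≤ 1 := by
    rw [gn_pow]
    exact pow_le_one₀ zero_le hw
  have h3 : gn v (w ^ 2 * FF a) ≤ 1 := by
    rw [gn_mul, Lx_FF_gn v a ha, mul_one]
    exact h2
  rw [rd_sub v h1 h3, rd_mul v h2 hF, rd_pow v hu, rd_pow v hw]

/-- `u` and `w` are integral if the norm of `u + w y` is. -/
theorem int_uw (ha : ∀ i, v (a i) ≤ 1) (P u w : K[X]) (hP : gn v P ≤ 1)
    (h : u ^ 2 - w ^ 2 * FF a = P) : gn v u ≤ 1 ∧ gn v w ≤ 1 := by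
  by_contra hcon
  have hM : 1 < max (gn v u) (gn v w) := by
    by_contra h1
    push Not at h1
    exact hcon ⟨(le_max_left _ _).trans h1, (le_max_right _ _).trans h1⟩
  obtain ⟨c, hc⟩ : ∃ c : K, v c = max (gn v u) (gn v w) := by
    rcases max_choice (gn v u) (gn v w) with h1 | h1
    · obtain ⟨i, hi⟩ := exists_gn v u
      exact ⟨u.coeff i, by rw [h1, hi]⟩
    · obtain ⟨i, hi⟩ := exists_gn v w
      exact ⟨w.coeff i, by rw [h1, hi]⟩
  have hc1 : 1 < v c := by rw [hc]; exact hM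
  have hvc : v c ≠ 0 := (zero_lt_one.trans hc1).ne'
  have key : ∀ p : K[X], gn v (C c⁻¹ * p) = (v c)⁻¹ * gn v p := by
    intro p
    rw [gn_mul, gn_C, map_inv₀]
  have hle : ∀ p : K[X], gn v p ≤ v c → gn v (C c⁻¹ * p) ≤ 1 := by
    intro p hp
    rw [key]
    calc (v c)⁻¹ * gn v p ≤ (v c)⁻¹ * v c := by gcongr
      _ = 1 := inv_mul_cancel₀ hvc
  have hu1 : gn v (C c⁻¹ * u) ≤ 1 := hle u (by rw [hc]; exact le_max_left _ _)
  have hw1 : gn v (C c⁻¹ * w) ≤ 1 := hle w (by rw [hc]; exact le_max_right _ _)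
  have e : (C c⁻¹ * u) ^ 2 - (C c⁻¹ * w) ^ 2 * FF a = (C c⁻¹) ^ 2 * P := by
    rw [← h]
    ring
  have hsm : gn v ((C c⁻¹) ^ 2 * P) < 1 := by
    rw [gn_mul, gn_pow, gn_C, map_inv₀]
    have h1 : (v c)⁻¹ < 1 := inv_lt_one_of_one_lt₀ hc1
    have h2 : (v c)⁻¹ ^ 2 < 1 := pow_lt_one₀ zero_le h1 two_ne_zero
    calc (v c)⁻¹ ^ 2 * gn v P ≤ (v c)⁻¹ ^ 2 * 1 := by gcongr
      _ = (v c)⁻¹ ^ 2 := mul_one _
      _ < 1 := h2
  have h3 := Lx_rd_expr v a ha (C c⁻¹ * u) (C c⁻¹ * w) hu1 hw1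
  rw [e, (rd_eq_zero v hsm.le).mpr hsm] at h3
  have h4 : rd v (C c⁻¹ * u) ^ 2 = rd v (C c⁻¹ * w) ^ 2 * rd v (FF a) := (sub_eq_zero.mp h3.symm)
  have hodd : Odd (rd v (FF a)).natDegree := by
    rw [Lx_rd_FF v a ha, natDegree_finsetProd_X_sub_C_eq_card, Finset.card_univ, Fintype.card_fin]
    exact ⟨g, rfl⟩
  obtain ⟨h5, h6⟩ := par_deg _ _ _ hodd h4
  rw [rd_eq_zero v hu1, key] at h5
  rw [rd_eq_zero v hw1, key] at h6
  have h7 : (v c)⁻¹ * v c < 1 := by
    rcases max_choice (gn v u) (gn v w) with h8 | h8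
    · rw [hc, h8] at h5 ⊢
      exact h5
    · rw [hc, h8] at h6 ⊢
      exact h6
  rw [inv_mul_cancel₀ hvc] at h7
  exact lt_irrefl _ h7

/-- the data at a pair of points with the same reduction -/
theorem pt1 (h2 : v 2 = 1) (F u w : K[X]) (hF : gn v F ≤ 1) (hu : gn v u ≤ 1) (hw : gn v w ≤ 1)
    (p b p' b' : K) (hp : v p ≤ 1) (hb : v b = 1) (hpb : b ^ 2 = F.eval p)
    (hpb' : b' ^ 2 = F.eval p') (hpp : v (p' - p) < 1) (hbb : v (b' - b) < 1) (M : ℕ)
    (h : el F u w ∈ pI F p (-b) ^ M) (h' : el F u w ∈ pI F p' b' ^ M) :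
    (X - C (re v p)) ^ M ∣ rd v w ∧
    (gn v w < 1 → p' ≠ p → 0 < M → (M : K) ≠ 0 →
      (∀ j : ℕ, 2 ≤ j → v (p' - p) ^ (j - 1) < v (j : K)) →
      ∀ V : K[X], gn v V ≤ 1 → v (V.eval p) = 1 →
      u ^ 2 - w ^ 2 * F = (X - C p) ^ M * (X - C p') ^ M * V →
      (∀ i, i < M - 1 → v ((w.comp (X + C p)).coeff i) < v ((M : K) * (p' - p))) ∧
        v ((w.comp (X + C p)).coeff (M - 1)) = v ((M : K) * (p' - p))) := by
  have hp' : v p' ≤ 1 := by
    have := v.map_add (p' - p) p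
    rw [sub_add_cancel] at this
    exact this.trans (max_le hpp.le hp)
  have hb' : v b' ≤ 1 := by
    have := v.map_add (b' - b) b
    rw [sub_add_cancel] at this
    exact this.trans (max_le hbb.le hb.le)
  obtain ⟨F0, hF0, hF1⟩ := exists_lift v hF
  obtain ⟨U, hU, hU1⟩ := exists_lift v hu
  obtain ⟨W, hW, hW1⟩ := exists_lift v hw
  set f := v.valuationSubring.subtype with hf
  have hfi : Function.Injective f := Subtype.val_injective
  set x : v.valuationSubring := ⟨p, hp⟩ with hx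
  set x' : v.valuationSubring := ⟨p', hp'⟩ with hx'
  set y : v.valuationSubring := ⟨b, hb.le⟩ with hy
  set y' : v.valuationSubring := ⟨b', hb'⟩ with hy'
  have h2u : IsUnit (2 : v.valuationSubring) := (v_unit v).2 h2
  have hyu : IsUnit y := (v_unit v).2 hb
  have hyF : y ^ 2 = F0.eval x := by
    apply hfi
    rw [map_pow, ← eval_map_apply, hF0]
    exact hpb
  have hyF' : y' ^ 2 = F0.eval x' := by
    apply hfi
    rw [map_pow, ← eval_map_apply, hF0]
    exact hpb'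
  have hxx : IsLocalRing.residue v.valuationSubring x' = IsLocalRing.residue v.valuationSubring x := by
    rw [← re_coe, ← re_coe]
    exact (re_eq_iff v hp' hp).2 hpp
  have hyy : IsLocalRing.residue v.valuationSubring y' = IsLocalRing.residue v.valuationSubring y := by
    rw [← re_coe, ← re_coe]
    exact (re_eq_iff v hb' hb.le).2 hbb
  have hyu' : IsUnit y' := by
    rw [← IsLocalRing.residue_ne_zero_iff_isUnit, hyy, IsLocalRing.residue_ne_zero_iff_isUnit]
    exact hyu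
  obtain ⟨Y, hY, hYF⟩ := exists_Y v F0 x y hyF hyu h2u
  obtain ⟨Y', hY', hYF'⟩ := exists_Y v F0 x' y' hyF' hyu' h2u
  have d1 : PowerSeries.X ^ M ∣ tay x U + tay x W * (-Y) := by
    refine dvd_O f hfi F0 U W x (-y) (-Y) (by rw [neg_sq]; exact hYF) (by rw [map_neg, hY]) M ?_
    rw [hF0, hU, hW]
    exact h
  have d2 : PowerSeries.X ^ M ∣ tay x' U + tay x' W * Y' := by
    refine dvd_O f hfi F0 U W x' y' Y' hYF' hY' M ?_
    rw [hF0, hU, hW]
    exact h'
  rw [mul_neg, ← sub_eq_add_neg] at d1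
  constructor
  · have := loc1 v F0 U W x x' y y' h2u hyu hxx hyy Y Y' hYF hY hYF' hY' M d1 d2
    rw [hW1, ← re_coe] at this
    exact this
  · intro hlt hne hM hM0 hj V hV hVp hN
    obtain ⟨V0, hV0, hV1⟩ := exists_lift v hV
    have hN0 : U ^ 2 - W ^ 2 * F0 = (X - C x) ^ M * (X - C x') ^ M * V0 := by
      apply Polynomial.map_injective f hfi
      simp only [Polynomial.map_sub, Polynomial.map_mul, Polynomial.map_pow, map_X, map_C]
      rw [hF0, hU, hW, hV0]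
      exact hN
    have hVu : IsUnit (V0.eval x) := by
      rw [v_unit v]
      have e : ((V0.eval x : v.valuationSubring) : K) = V.eval p := by
        have := eval_map_apply (p := V0) f x
        rw [hV0] at this
        exact this.symm
      rw [e]
      exact hVp
    have hYu : IsUnit Y := by
      rw [PowerSeries.isUnit_iff_constantCoeff, hY]
      exact hyu
    have hW0 : W.map (IsLocalRing.residue v.valuationSubring) = 0 := by
      rw [hW1, rd_eq_zero v hw]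
      exact hlt
    have hne' : x' ≠ x := fun h0 => hne (congrArg Subtype.val h0)
    have key := loc2 v F0 U W V0 x x' h2u hxx hne' Y hYF hYu M hM hM0 d1 hN0 hVu hW0 hj
    have hcf : ∀ i, ck v (tay x W) i = (w.comp (X + C p)).coeff i := by
      intro i
      unfold ck
      rw [tay_apply, Polynomial.coeff_coe, ← hW]
      have e : (W.map f).comp (X + C p) = (W.comp (X + C x)).map f := by
        rw [Polynomial.map_comp, Polynomial.map_add, map_X, map_C]
        rfl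
      rw [e, coeff_map]
      rfl
    refine ⟨fun i hi => ?_, ?_⟩
    · rw [← hcf]
      exact key.1 i hi
    · rw [← hcf]
      exact key.2

/-- divisibility of the normalized reduction -/
theorem fin_dvd (w : K[X]) (p : K) (hp : v p ≤ 1) (m : ℕ) (e : Γ) (c : K) (hc : v c = gn v w)
    (hc0 : v c ≠ 0) (h : ∀ i, i < m → v ((w.comp (X + C p)).coeff i) < e) (he : e ≤ gn v w) :
    (X - C (re v p)) ^ m ∣ rd v (C c⁻¹ * w) := by
  have h1 : gn v (C c⁻¹ * w) ≤ 1 := by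
    rw [gn_mul, gn_C, map_inv₀, hc, inv_mul_cancel₀ (by rwa [← hc])]
  obtain ⟨W, hW, hW1⟩ := exists_lift v h1
  set x : v.valuationSubring := ⟨p, hp⟩ with hx
  rw [← hW1]
  have e1 : re v p = IsLocalRing.residue v.valuationSubring x := re_coe v x
  rw [e1]
  apply dvd_of_tay
  rw [← tay_map, PowerSeries.X_pow_dvd_iff]
  intro i hi
  rw [PowerSeries.coeff_map, ← re_coe, re_eq_zero v (v_int v _)]
  have e2 : ((PowerSeries.coeff i (tay x W) : v.valuationSubring) : K) =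
      c⁻¹ * (w.comp (X + C p)).coeff i := by
    rw [tay_apply, Polynomial.coeff_coe]
    have e3 : (W.comp (X + C x)).map v.valuationSubring.subtype = (C c⁻¹ * w).comp (X + C p) := by
      rw [Polynomial.map_comp, Polynomial.map_add, map_X, map_C, hW]
      rfl
    have e4 : ((((W.comp (X + C x)).coeff i : v.valuationSubring)) : K) =
        ((W.comp (X + C x)).map v.valuationSubring.subtype).coeff i := by
      rw [coeff_map]
      rfl
    rw [e4, e3, mul_comp, C_comp, coeff_C_mul]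
  rw [e2, map_mul, map_inv₀]
  have h3 : 0 < (v c)⁻¹ := zero_lt_iff.2 (inv_ne_zero hc0)
  calc (v c)⁻¹ * v ((w.comp (X + C p)).coeff i) < (v c)⁻¹ * e := mul_lt_mul_of_pos_left (h i hi) h3
    _ ≤ (v c)⁻¹ * v c := by
      gcongr
      rw [hc]
      exact he
    _ = 1 := inv_mul_cancel₀ hc0

/-- two coprime divisors -/
theorem two_dvd {κ : Type*} [Field κ] (w : κ[X]) (x y : κ) (hxy : x ≠ y) (m : ℕ) (hw : w ≠ 0)
    (h1 : (X - C x) ^ m ∣ w) (h2 : (X - C y) ^ m ∣ w) : 2 * m ≤ w.natDegree := by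
  have hco : IsCoprime ((X - C x) ^ m) ((X - C y) ^ m) :=
    (isCoprime_X_sub_C_of_isUnit_sub (sub_ne_zero.mpr hxy).isUnit).pow
  have h3 := natDegree_le_of_dvd (hco.mul_dvd h1 h2) hw
  rw [natDegree_mul (pow_ne_zero _ (X_sub_C_ne_zero _)) (pow_ne_zero _ (X_sub_C_ne_zero _)),
    natDegree_pow, natDegree_pow, natDegree_X_sub_C, natDegree_X_sub_C] at h3
  omega

theorem four_mem {R : Type*} [CommRing R] (I J J' L : Ideal R) (z : R) (M : ℕ)
    (h : z ∈ (I * (J * (J' * L))) ^ M) : z ∈ I ^ M ∧ z ∈ J ^ M ∧ z ∈ J' ^ M ∧ z ∈ L ^ M := by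
  have h1 : I * (J * (J' * L)) ≤ I := Ideal.mul_le_left
  have h2 : I * (J * (J' * L)) ≤ J := Ideal.mul_le_right.trans Ideal.mul_le_left
  have h3 : I * (J * (J' * L)) ≤ J' :=
    (Ideal.mul_le_right.trans Ideal.mul_le_right).trans Ideal.mul_le_left
  have h4 : I * (J * (J' * L)) ≤ L :=
    (Ideal.mul_le_right.trans Ideal.mul_le_right).trans Ideal.mul_le_right
  exact ⟨Ideal.pow_right_mono h1 M h, Ideal.pow_right_mono h2 M h, Ideal.pow_right_mono h3 M h,
    Ideal.pow_right_mono h4 M h⟩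

/-- The main lemma for any genus `≥ 2`. -/
theorem lemXg {K : Type*} [Field K] [IsAlgClosed K] [CharZero K] {G : Type*}
    [LinearOrderedCommGroupWithZero G] (v : Valuation K G) {g : ℕ} (hg : 2 ≤ g)
    (a : Fin (2 * g + 1) → K)
    [Fact (Function.Injective a)] (h2 : v 2 = 1) (ha : ∀ i, v (a i) ≤ 1)
    (P P' Q Q' : K × K) (hon : OnC a {P, P', Q, Q'})
    (hp : v P.1 ≤ 1) (hq : v Q.1 ≤ 1) (hb : v P.2 = 1) (hc : v Q.2 = 1)
    (hbb : v (P'.2 - P.2) < 1) (hcc : v (Q'.2 - Q.2) < 1) (hpq : v (P.1 - Q.1) = 1)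
    (hpp : P'.1 ≠ P.1) (hqq : Q'.1 ≠ Q.1)
    (hj : ∀ j : ℕ, 2 ≤ j → v (P'.1 - P.1) ^ (j - 1) < v (j : K))
    (hj' : ∀ j : ℕ, 2 ≤ j → v (Q'.1 - Q.1) ^ (j - 1) < v (j : K)) (M : ℕ) (hM : 0 < M)
    (h : clS a (M • ({P', Q, wP P, wP Q'} : Multiset (K × K))) = 1) : False := by
  have hP : P.2 ^ 2 = (FF a).eval P.1 := hon P (by simp)
  have hP' : P'.2 ^ 2 = (FF a).eval P'.1 := hon P' (by simp)
  have hQ : Q.2 ^ 2 = (FF a).eval Q.1 := hon Q (by simp)
  have hQ' : Q'.2 ^ 2 = (FF a).eval Q'.1 := hon Q' (by simp)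
  have hpp1 : v (P'.1 - P.1) < 1 := by
    have := hj 2 le_rfl
    rw [show 2 - 1 = 1 from rfl, pow_one] at this
    have e : v ((2 : ℕ) : K) = 1 := by
      rw [← h2]
      norm_num
    rwa [e] at this
  have hqq1 : v (Q'.1 - Q.1) < 1 := by
    have := hj' 2 le_rfl
    rw [show 2 - 1 = 1 from rfl, pow_one] at this
    have e : v ((2 : ℕ) : K) = 1 := by
      rw [← h2]
      norm_num
    rwa [e] at this
  have hp' : v P'.1 ≤ 1 := by
    have := v.map_add (P'.1 - P.1) P.1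
    rw [sub_add_cancel] at this
    exact this.trans (max_le hpp1.le hp)
  have hq' : v Q'.1 ≤ 1 := by
    have := v.map_add (Q'.1 - Q.1) Q.1
    rw [sub_add_cancel] at this
    exact this.trans (max_le hqq1.le hq)
  set S0 : Multiset (K × K) := {P', Q, wP P, wP Q'} with hS0
  -- the ideal
  have hS0on : OnC a S0 := by
    intro R hR
    rw [hS0] at hR
    simp only [Multiset.insert_eq_cons, Multiset.mem_cons, Multiset.mem_singleton] at hR
    rcases hR with rfl | rfl | rfl | rfl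
    · exact hP'
    · exact hQ
    · show (-P.2) ^ 2 = _
      rw [neg_sq]
      exact hP
    · show (-Q'.2) ^ 2 = _
      rw [neg_sq]
      exact hQ'
  have hSon : OnC a (M • S0) := by
    intro R hR
    exact hS0on R (Multiset.mem_of_mem_nsmul hR)
  obtain ⟨u, w, h0, h1⟩ := (cl_prod_eq_one_iff a (M • S0)).1 h
  obtain ⟨T, hT, hT1, hT2⟩ := fct a u w h0
  have hST : M • S0 = T := by
    apply le_antisymm
    · exact fct_unique a T (M • S0) hT hSon (by rw [← hT1, h1])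
    · exact fct_unique a (M • S0) T hSon hT (by rw [← hT1, h1])
  rw [← hST] at hT2
  have hprod : ((M • S0).map fun P => pI (FF a) P.1 P.2).prod =
      (pI (FF a) P'.1 P'.2 * (pI (FF a) Q.1 Q.2 * (pI (FF a) P.1 (-P.2) *
        pI (FF a) Q'.1 (-Q'.2)))) ^ M := by
    rw [Multiset.map_nsmul, Multiset.prod_nsmul]
    congr 1
    rw [hS0]
    simp only [Multiset.insert_eq_cons, Multiset.map_cons, Multiset.map_singleton,
      Multiset.prod_cons, Multiset.prod_singleton, wP]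
  have hmem0 : el (FF a) u w ∈ (pI (FF a) P'.1 P'.2 * (pI (FF a) Q.1 Q.2 *
      (pI (FF a) P.1 (-P.2) * pI (FF a) Q'.1 (-Q'.2)))) ^ M := by
    rw [← hprod, h1]
    exact Ideal.mem_span_singleton_self _
  -- the norm
  set N := u ^ 2 - w ^ 2 * FF a with hN
  have hN0 : N ≠ 0 := by
    intro hN'
    obtain ⟨hu, hw⟩ := par_deg u w (FF a) (cra_FF_odd a) (sub_eq_zero.1 hN')
    rcases h0 with h0 | h0
    · exact h0 hu
    · exact h0 hw
  have hroots : N.roots = M • ({P'.1, Q.1, P.1, Q'.1} : Multiset K) := by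
    rw [← hT2, Multiset.map_nsmul, hS0]
    simp only [Multiset.insert_eq_cons, Multiset.map_cons, Multiset.map_singleton, wP]
  have hNdeg : N.natDegree = 4 * M := by
    rw [(IsAlgClosed.splits N).natDegree_eq_card_roots, hroots, Multiset.card_nsmul]
    simp [mul_comm]
  set R : K[X] := (X - C P.1) ^ M * (X - C P'.1) ^ M *
    ((X - C Q.1) ^ M * (X - C Q'.1) ^ M) with hR
  have hNR : N = C N.leadingCoeff * R := by
    have e := (IsAlgClosed.splits N).eq_prod_roots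
    rw [hroots, Multiset.map_nsmul, Multiset.prod_nsmul] at e
    simp only [Multiset.insert_eq_cons, Multiset.map_cons, Multiset.map_singleton,
      Multiset.prod_cons, Multiset.prod_singleton] at e
    calc N = _ := e
      _ = C N.leadingCoeff * R := by
        rw [hR, mul_pow, mul_pow, mul_pow]
        ring
  have hFF : FF a ≠ 0 := by
    intro h
    have := cra_FF_natDegree a
    rw [h, natDegree_zero] at this
    omega
  have hwdeg : w ≠ 0 → 2 * w.natDegree + (2 * g + 1) ≤ 4 * M := by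
    intro hw
    have e2 : (w ^ 2 * FF a).natDegree = 2 * w.natDegree + (2 * g + 1) := by
      rw [natDegree_mul (pow_ne_zero 2 hw) hFF, natDegree_pow, cra_FF_natDegree]
    have e3 : (u ^ 2).natDegree = 2 * u.natDegree := natDegree_pow u 2
    rcases lt_trichotomy (u ^ 2).natDegree (w ^ 2 * FF a).natDegree with hlt | heq | hgt
    · have := natDegree_sub_eq_right_of_natDegree_lt hlt
      rw [← hN, hNdeg, e2] at this
      omega
    · rw [e2, e3] at heq
      omega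
    · have := natDegree_sub_eq_left_of_natDegree_lt hgt
      rw [← hN, hNdeg] at this
      omega
  -- normalize
  obtain ⟨d, hd⟩ := IsAlgClosed.exists_pow_nat_eq (N.leadingCoeff⁻¹) (n := 2) two_pos
  have hlc : N.leadingCoeff ≠ 0 := leadingCoeff_ne_zero.2 hN0
  have hd0 : d ≠ 0 := by
    rintro rfl
    rw [zero_pow two_ne_zero] at hd
    exact inv_ne_zero hlc hd.symm
  set u1 := C d * u with hu1
  set w1 := C d * w with hw1
  have hN1 : u1 ^ 2 - w1 ^ 2 * FF a = R := by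
    have e : u1 ^ 2 - w1 ^ 2 * FF a = C (d ^ 2) * N := by
      rw [hu1, hw1, hN, C_pow]
      ring
    have e2 : C (d ^ 2) * N = C (d ^ 2 * N.leadingCoeff) * R := by
      rw [C_mul, mul_assoc, ← hNR]
    rw [e, e2, hd, inv_mul_cancel₀ hlc, C_1, one_mul]
  have hw1deg : w1.natDegree = w.natDegree := by
    rw [hw1, natDegree_C_mul hd0]
  have hmem1 : el (FF a) u1 w1 ∈ (pI (FF a) P'.1 P'.2 * (pI (FF a) Q.1 Q.2 *
      (pI (FF a) P.1 (-P.2) * pI (FF a) Q'.1 (-Q'.2)))) ^ M := by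
    have e : el (FF a) u1 w1 = el (FF a) (C d) 0 * el (FF a) u w := by
      rw [el_mul, hu1, hw1]
      congr 1
      · ring
      · ring
    rw [e]
    exact Ideal.mul_mem_left _ _ hmem0
  obtain ⟨m1, m2, m3, m4⟩ := four_mem _ _ _ _ _ M hmem1
  -- integrality
  have gx : ∀ z : K, v z ≤ 1 → gn v ((X - C z) ^ M) = 1 := by
    intro z hz
    rw [gn_pow, gn_X_sub_C v hz, one_pow]
  have hRg : gn v R = 1 := by
    rw [hR, gn_mul, gn_mul, gn_mul, gx _ hp, gx _ hp', gx _ hq, gx _ hq', one_mul, one_mul]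
  obtain ⟨hu1g, hw1g⟩ := int_uw v a ha R u1 w1 hRg.le hN1
  have hFg : gn v (FF a) ≤ 1 := (Lx_FF_gn v a ha).le
  -- local lemmas
  have hcneg : v (-Q.2) = 1 := by rw [Valuation.map_neg, hc]
  have hccn : v (-Q'.2 - -Q.2) < 1 := by
    have e : -Q'.2 - -Q.2 = -(Q'.2 - Q.2) := by ring
    rw [e, Valuation.map_neg]
    exact hcc
  obtain ⟨p1, p2⟩ := pt1 v h2 (FF a) u1 w1 hFg hu1g hw1g P.1 P.2 P'.1 P'.2 hp hb hP hP' hpp1 hbb M
    m3 m1
  obtain ⟨q1, q2⟩ := pt1 v h2 (FF a) u1 w1 hFg hu1g hw1g Q.1 (-Q.2) Q'.1 (-Q'.2) hq hcneg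
    (by rw [neg_sq]; exact hQ) (by rw [neg_sq]; exact hQ') hqq1 hccn M
    (by rw [neg_neg]; exact m2) m4
  have hre : re v P.1 ≠ re v Q.1 := by
    intro he
    rw [re_eq_iff v hp hq, hpq] at he
    exact lt_irrefl _ he
  -- the reduction of `w` is zero
  have hwlt : gn v w1 < 1 := by
    rw [← rd_eq_zero v hw1g]
    by_contra hne
    have hwne : w ≠ 0 := by
      intro h0
      apply hne
      rw [rd_eq_zero v hw1g, hw1, h0, mul_zero, gn_zero]
      exact zero_lt_one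
    have h3 := two_dvd (rd v w1) (re v P.1) (re v Q.1) hre M hne p1 q1
    have h4 := rd_natDegree_le v w1
    have h5 := hwdeg hwne
    omega
  have hM0 : (M : K) ≠ 0 := Nat.cast_ne_zero.2 hM.ne'
  -- cross values
  have vpq' : v (P.1 - Q'.1) = 1 := by
    have e : P.1 - Q'.1 = (P.1 - Q.1) + -(Q'.1 - Q.1) := by ring
    rw [e, v.map_add_eq_of_lt_left (by rw [Valuation.map_neg, hpq]; exact hqq1), hpq]
  have vqp : v (Q.1 - P.1) = 1 := by rw [v.map_sub_swap, hpq]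
  have vqp' : v (Q.1 - P'.1) = 1 := by
    have e : Q.1 - P'.1 = (Q.1 - P.1) + -(P'.1 - P.1) := by ring
    rw [e, v.map_add_eq_of_lt_left (by rw [Valuation.map_neg, vqp]; exact hpp1), vqp]
  obtain ⟨p3, p4⟩ := p2 hwlt hpp hM hM0 hj ((X - C Q.1) ^ M * (X - C Q'.1) ^ M)
    (by rw [gn_mul, gx _ hq, gx _ hq', one_mul])
    (by
      simp only [eval_mul, eval_pow, eval_sub, eval_X, eval_C, map_mul, map_pow]
      rw [hpq, vpq', one_pow, one_mul])
    (by rw [hN1, hR])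
  obtain ⟨q3, q4⟩ := q2 hwlt hqq hM hM0 hj' ((X - C P.1) ^ M * (X - C P'.1) ^ M)
    (by rw [gn_mul, gx _ hp, gx _ hp', one_mul])
    (by
      simp only [eval_mul, eval_pow, eval_sub, eval_X, eval_C, map_mul, map_pow]
      rw [vqp, vqp', one_pow, one_mul])
    (by rw [hN1, hR]; ring)
  -- the final contradiction
  have hgp : gn v (w1.comp (X + C P.1)) = gn v w1 := gn_taylor v hp w1
  have hgq : gn v (w1.comp (X + C Q.1)) = gn v w1 := gn_taylor v hq w1
  have ep : v ((M : K) * (P'.1 - P.1)) ≤ gn v w1 := by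
    rw [← p4, ← hgp]
    exact le_gn v _ _
  have eq : v ((M : K) * (Q'.1 - Q.1)) ≤ gn v w1 := by
    rw [← q4, ← hgq]
    exact le_gn v _ _
  have hpos : 0 < v ((M : K) * (P'.1 - P.1)) :=
    zero_lt_iff.2 ((Valuation.ne_zero_iff v).2 (mul_ne_zero hM0 (sub_ne_zero.2 hpp)))
  have hgpos : 0 < gn v w1 := lt_of_lt_of_le hpos ep
  obtain ⟨i, hi⟩ := exists_gn v w1
  have hc0 : v (w1.coeff i) ≠ 0 := by rw [hi]; exact hgpos.ne'
  have f1 := fin_dvd v w1 P.1 hp (M - 1) _ (w1.coeff i) hi hc0 p3 ep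
  have f2 := fin_dvd v w1 Q.1 hq (M - 1) _ (w1.coeff i) hi hc0 q3 eq
  have hgn1 : gn v (C (w1.coeff i)⁻¹ * w1) = 1 := by
    rw [gn_mul, gn_C, map_inv₀, hi, inv_mul_cancel₀ (by rwa [← hi])]
  have hne1 : rd v (C (w1.coeff i)⁻¹ * w1) ≠ 0 := by
    rw [Ne, rd_eq_zero v hgn1.le, hgn1]
    exact lt_irrefl _
  have f3 := two_dvd _ _ _ hre (M - 1) hne1 f1 f2
  have f4 := rd_natDegree_le v (C (w1.coeff i)⁻¹ * w1)
  have f5 : (C (w1.coeff i)⁻¹ * w1).natDegree ≤ w1.natDegree := natDegree_C_mul_le _ _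
  have hwne : w ≠ 0 := by
    intro h0
    rw [hw1, h0, mul_zero, gn_zero] at hgpos
    exact lt_irrefl _ hgpos
  have f6 := hwdeg hwne
  omega

theorem lemX {K : Type*} [Field K] [IsAlgClosed K] [CharZero K] {G : Type*}
    [LinearOrderedCommGroupWithZero G] (v : Valuation K G) (a : Fin (2 * 2 + 1) → K)
    [Fact (Function.Injective a)] (h2 : v 2 = 1) (ha : ∀ i, v (a i) ≤ 1)
    (_hd : ∀ i j, i ≠ j → v (a i - a j) = 1) (P P' Q Q' : K × K) (hon : OnC a {P, P', Q, Q'})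
    (hp : v P.1 ≤ 1) (hq : v Q.1 ≤ 1) (hb : v P.2 = 1) (hc : v Q.2 = 1)
    (hbb : v (P'.2 - P.2) < 1) (hcc : v (Q'.2 - Q.2) < 1) (hpq : v (P.1 - Q.1) = 1)
    (hpp : P'.1 ≠ P.1) (hqq : Q'.1 ≠ Q.1)
    (hj : ∀ j : ℕ, 2 ≤ j → v (P'.1 - P.1) ^ (j - 1) < v (j : K))
    (hj' : ∀ j : ℕ, 2 ≤ j → v (Q'.1 - Q.1) ^ (j - 1) < v (j : K)) (M : ℕ) (hM : 0 < M)
    (h : clS a (M • ({P', Q, wP P, wP Q'} : Multiset (K × K))) = 1) : False :=
  lemXg v le_rfl a h2 ha P P' Q Q' hon hp hq hb hc hbb hcc hpq hpp hqq hj hj' M hM h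

end GJ
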