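import Mathlib

/-!
# GJ, Ps (helper83): power series over a valuation ring

* `exists_sqrt`: a square root of a power series with constant coefficient `b ^ 2`, `2 b` invertible.
* `Low v s m e`: the coefficients of `s` of index `< m` have value `< e`, the one of index `m` has value `e`.
  `low_mul`: stable under multiplication by units.  `low_pow`: `(X - C π) ^ M` is low at `M - 1` with `e = v (M π)`.
-/

set_option autoImplicit false

namespace GJ

open PowerSeries

section sqrt

variable {R : Type*} [CommRing R]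

/-- The coefficients of a square root. -/
noncomputable def sqc (f : ℕ → R) (b c : R) : ℕ → R
  | 0 => b
  | n + 1 => (f (n + 1) - ∑ i : Fin n, sqc f b c (i.1 + 1) * sqc f b c (n - i.1)) * c
termination_by n => n
decreasing_by all_goals omega

theorem exists_sqrt (f : R⟦X⟧) (b c : R) (hc : 2 * b * c = 1) (hf : constantCoeff f = b ^ 2) :
    ∃ Y : R⟦X⟧, constantCoeff Y = b ∧ Y ^ 2 = f := by
  refine ⟨PowerSeries.mk (sqc (fun n => coeff n f) b c), ?_, ?_⟩
  · rw [← coeff_zero_eq_constantCoeff_apply, coeff_mk, sqc]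
  · ext n
    rw [pow_two, coeff_mul]
    simp only [coeff_mk]
    cases n with
    | zero =>
      rw [Finset.Nat.antidiagonal_zero, Finset.sum_singleton]
      simp only [sqc]
      rw [coeff_zero_eq_constantCoeff_apply, hf, pow_two]
    | succ n =>
      rw [Finset.Nat.sum_antidiagonal_eq_sum_range_succ_mk, Finset.sum_range_succ,
        Finset.sum_range_succ']
      have e1 : ∀ k ∈ Finset.range n, n + 1 - (k + 1) = n - k := fun k _ => by omega
      rw [Finset.sum_congr rfl (fun k hk => by rw [e1 k hk])]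
      have e2 : ∑ i : Fin n, sqc (fun n => coeff n f) b c (i.1 + 1) *
          sqc (fun n => coeff n f) b c (n - i.1) =
          ∑ k ∈ Finset.range n, sqc (fun n => coeff n f) b c (k + 1) *
            sqc (fun n => coeff n f) b c (n - k) :=
        Fin.sum_univ_eq_sum_range (fun k => sqc (fun n => coeff n f) b c (k + 1) *
          sqc (fun n => coeff n f) b c (n - k)) n
      set A := ∑ k ∈ Finset.range n, sqc (fun n => coeff n f) b c (k + 1) *
            sqc (fun n => coeff n f) b c (n - k) with hA
      have e3 : sqc (fun n => coeff n f) b c (n + 1) = (coeff (n + 1) f - A) * c := by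
        rw [sqc, e2]
      have e4 : sqc (fun n => coeff n f) b c 0 = b := by rw [sqc]
      rw [Nat.sub_zero, Nat.sub_self, e4, e3]
      linear_combination (coeff (n + 1) f - A) * hc

end sqrt

section low

variable {K : Type*} [Field K] {Γ : Type*} [LinearOrderedCommGroupWithZero Γ] (v : Valuation K Γ)

/-- A coefficient, as an element of `K`. -/
noncomputable def ck (s : v.valuationSubring⟦X⟧) (i : ℕ) : K := ((coeff i s : v.valuationSubring) : K)

/-- The coefficients of index `< m` have value `< e`, the one of index `m` has value `e`. -/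
def Low (s : v.valuationSubring⟦X⟧) (m : ℕ) (e : Γ) : Prop :=
  (∀ i, i < m → v (ck v s i) < e) ∧ v (ck v s m) = e

theorem v_int (x : v.valuationSubring) : v (x : K) ≤ 1 := x.2

theorem v_unit {x : v.valuationSubring} : IsUnit x ↔ v (x : K) = 1 := by
  constructor
  · intro h
    obtain ⟨y, hy⟩ := h.exists_right_inv
    have h2 : (x : K) * (y : K) = 1 := congrArg Subtype.val hy
    have h3 : v (x : K) * v (y : K) = 1 := by rw [← map_mul, h2, map_one]
    refine le_antisymm (v_int v x) ?_
    calc (1 : Γ) = v (x : K) * v (y : K) := h3.symm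
      _ ≤ v (x : K) * 1 := by gcongr; exact v_int v y
      _ = v (x : K) := mul_one _
  · intro h1
    have h0 : (x : K) ≠ 0 := by
      intro h0
      rw [h0, map_zero] at h1
      exact zero_ne_one h1
    have h2 : v (x : K)⁻¹ ≤ 1 := by rw [map_inv₀, h1, inv_one]
    refine IsUnit.of_mul_eq_one (⟨(x : K)⁻¹, h2⟩ : v.valuationSubring) (Subtype.ext ?_)
    exact mul_inv_cancel₀ h0

theorem low_mul {s t : v.valuationSubring⟦X⟧} {m : ℕ} {e : Γ} (hs : Low v s m e)
    (ht : IsUnit t) : Low v (s * t) m e := by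
  have ht0 : v (ck v t 0) = 1 := by
    unfold ck
    rw [← v_unit, coeff_zero_eq_constantCoeff_apply]
    exact PowerSeries.isUnit_iff_constantCoeff.1 ht
  have hle : ∀ n, v (ck v t n) ≤ 1 := fun n => v_int v _
  have hc : ∀ n, ck v (s * t) n =
      ∑ k ∈ Finset.range (n + 1), (ck v s k) * (ck v t (n - k)) := by
    intro n
    unfold ck
    rw [coeff_mul, Finset.Nat.sum_antidiagonal_eq_sum_range_succ_mk]
    push_cast
    rfl
  rcases eq_or_ne e 0 with he | he
  · -- then all coefficients below vanish
    subst he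
    refine ⟨fun i hi => absurd (hs.1 i hi) not_lt_zero, ?_⟩
    rcases Nat.eq_zero_or_pos m with hm | hm
    · subst hm
      rw [hc, Finset.sum_range_one, map_mul, hs.2, zero_mul]
    · exact absurd (hs.1 0 hm) not_lt_zero
  have he0 : 0 < e := zero_lt_iff.2 he
  constructor
  · intro i hi
    rw [hc]
    refine v.map_sum_lt he fun k hk => ?_
    rw [map_mul]
    rw [Finset.mem_range] at hk
    calc v (ck v s k) * v (ck v t (i - k)) ≤ v (ck v s k) * 1 := by
          gcongr; exact hle _
      _ = v (ck v s k) := mul_one _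
      _ < e := hs.1 k (by omega)
  · rw [hc, Finset.sum_range_succ, Nat.sub_self, add_comm]
    have h1 : v ((ck v s m) * (ck v t 0)) = e := by
      rw [map_mul, hs.2, ht0, mul_one]
    have h2 : v (∑ k ∈ Finset.range m, (ck v s k) * (ck v t (m - k))) < e := by
      refine v.map_sum_lt he fun k hk => ?_
      rw [map_mul]
      rw [Finset.mem_range] at hk
      calc v (ck v s k) * v (ck v t (m - k)) ≤ v (ck v s k) * 1 := by
            gcongr; exact hle _
        _ = v (ck v s k) := mul_one _
        _ < e := hs.1 k hk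
    rw [v.map_add_eq_of_lt_left (by rw [h1]; exact h2), h1]

theorem low_sub {s t : v.valuationSubring⟦X⟧} {m : ℕ} {e : Γ} (hs : Low v s m e) :
    Low v (s - X ^ (m + 1) * t) m e := by
  have h : ∀ i, i < m + 1 → ck v (s - X ^ (m + 1) * t) i = ck v s i := by
    intro i hi
    unfold ck
    rw [map_sub, coeff_X_pow_mul', if_neg (by omega), sub_zero]
  refine ⟨fun i hi => ?_, ?_⟩
  · rw [h i (by omega)]
    exact hs.1 i hi
  · rw [h m (by omega)]
    exact hs.2

theorem v_choose {M j : ℕ} (hj : 1 ≤ j) (hjM : j ≤ M) :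
    v (j : K) * v ((M.choose j : ℕ) : K) ≤ v (M : K) := by
  obtain ⟨j, rfl⟩ : ∃ i, j = i + 1 := ⟨j - 1, by omega⟩
  obtain ⟨M, rfl⟩ : ∃ i, M = i + 1 := ⟨M - 1, by omega⟩
  have h := Nat.add_one_mul_choose_eq M j
  rw [← map_mul]
  have e : ((j + 1 : ℕ) : K) * (((M + 1).choose (j + 1) : ℕ) : K) =
      ((M + 1 : ℕ) : K) * ((M.choose j : ℕ) : K) := by
    rw [← Nat.cast_mul, ← Nat.cast_mul, h, mul_comm]
  rw [e, map_mul]
  have h1 : v ((M.choose j : ℕ) : K) ≤ 1 := by
    have := v_int v ((M.choose j : ℕ) : v.valuationSubring)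
    simpa using this
  calc v ((M + 1 : ℕ) : K) * v ((M.choose j : ℕ) : K) ≤ v ((M + 1 : ℕ) : K) * 1 := by gcongr
    _ = v ((M + 1 : ℕ) : K) := mul_one _

theorem low_pow (M : ℕ) (hM : 0 < M) (r : v.valuationSubring) (hM0 : (M : K) ≠ 0)
    (hr : (r : K) ≠ 0) (hj : ∀ j : ℕ, 2 ≤ j → v (r : K) ^ (j - 1) < v (j : K)) :
    Low v ((((Polynomial.X - Polynomial.C r) ^ M : Polynomial v.valuationSubring)) :
      v.valuationSubring⟦X⟧) (M - 1) (v ((M : K) * r)) := by
  have hc : ∀ k, ck v (((Polynomial.X - Polynomial.C r) ^ M :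
      Polynomial v.valuationSubring) : v.valuationSubring⟦X⟧) k =
      (-(r : K)) ^ (M - k) * ((M.choose k : ℕ) : K) := by
    intro k
    unfold ck
    rw [Polynomial.coeff_coe, sub_eq_add_neg, ← Polynomial.C_neg, Polynomial.coeff_X_add_C_pow]
    push_cast
    rfl
  have hvr : 0 < v (r : K) := zero_lt_iff.2 ((Valuation.ne_zero_iff v).2 hr)
  have hvM : 0 < v (M : K) := zero_lt_iff.2 ((Valuation.ne_zero_iff v).2 hM0)
  refine ⟨fun i hi => ?_, ?_⟩
  · rw [hc, map_mul, map_pow, Valuation.map_neg, map_mul]
    have hji : 2 ≤ M - i := by omega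
    have h1 := hj (M - i) hji
    have h2 : M.choose i = M.choose (M - i) := (Nat.choose_symm (by omega)).symm
    rw [h2]
    have h3 := v_choose v (K := K) (M := M) (j := M - i) (by omega) (by omega)
    have hj0 : 0 < v ((M - i : ℕ) : K) := lt_of_le_of_lt zero_le h1
    have e1 : v (r : K) ^ (M - i) = v (r : K) ^ (M - i - 1) * v (r : K) := by
      rw [← pow_succ]
      congr 1
      omega
    rw [e1]
    have h4 : v (r : K) ^ (M - i - 1) * (v ((M - i : ℕ) : K) * v ((M.choose (M - i) : ℕ) : K)) <
        v ((M - i : ℕ) : K) * v (M : K) := by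
      calc v (r : K) ^ (M - i - 1) * (v ((M - i : ℕ) : K) * v ((M.choose (M - i) : ℕ) : K))
          ≤ v (r : K) ^ (M - i - 1) * v (M : K) := by gcongr
        _ < v ((M - i : ℕ) : K) * v (M : K) := by
          exact mul_lt_mul_of_pos_right h1 hvM
    have h5 : v (r : K) ^ (M - i - 1) * v ((M.choose (M - i) : ℕ) : K) < v (M : K) := by
      rw [mul_left_comm] at h4
      exact lt_of_mul_lt_mul_left' h4
    calc v (r : K) ^ (M - i - 1) * v (r : K) * v ((M.choose (M - i) : ℕ) : K)
        = v (r : K) ^ (M - i - 1) * v ((M.choose (M - i) : ℕ) : K) * v (r : K) := by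
          rw [mul_right_comm]
      _ < v (M : K) * v (r : K) := mul_lt_mul_of_pos_right h5 hvr
  · rw [hc, map_mul, map_pow, Valuation.map_neg, map_mul]
    have e1 : M - (M - 1) = 1 := by omega
    have e2 : M.choose (M - 1) = M := by
      rw [← Nat.choose_symm (show M - 1 ≤ M by omega), e1, Nat.choose_one_right]
    rw [e1, e2, pow_one, mul_comm]

end low

end GJ
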